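import Pool.Agent.ShghL.Close1

/-!
# ShghX1/Strip: the window of a long strip (counting part)

`h e B` stands for the dimension of the space of the polynomials on the strip of length `e` with
multiplicities `B` at generic points, `s e` for the number of monomials of the strip, `t` for the
number of its rows.
-/

namespace ShghX1

open ShghJ ShghL

/-- The increments `r_e = h_e - h_(e-1)`. -/
def rI (h : ℕ → Multiset ℕ → ℕ) (e : ℕ) (B : Multiset ℕ) : ℕ :=
  h e B - (if e = 0 then 0 else h (e - 1) B)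

/-- The properties of the dimension function of a strip with `t` rows. -/
structure StripFun (t : ℕ) (s : ℕ → ℕ) (h : ℕ → Multiset ℕ → ℕ) : Prop where
  zero : ∀ e, h e 0 = s e
  lower : ∀ e B, s e ≤ h e B + TT B
  anti : ∀ e m B, h e (m ::ₘ B) ≤ h e B
  mono : ∀ e B, h e B ≤ h (e + 1) B
  conv : ∀ e B, 2 * h (e + 1) B ≤ h e B + h (e + 2) B
  conv0 : ∀ B, 2 * h 0 B ≤ h 1 B
  rle0 : ∀ B, h 0 B ≤ t
  rle : ∀ e B, h (e + 1) B ≤ h e B + t
  star : ∀ e m B, h e (m ::ₘ B) ≤ ∑ i ∈ Finset.range (e + 1), (rI h (e - i) B - (m - i))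

variable {t : ℕ} {s : ℕ → ℕ} {h : ℕ → Multiset ℕ → ℕ}

theorem rI_zero (B : Multiset ℕ) : rI h 0 B = h 0 B := by simp [rI]

theorem rI_succ (e : ℕ) (B : Multiset ℕ) : rI h (e + 1) B = h (e + 1) B - h e B := by simp [rI]

theorem StripFun.h_succ (H : StripFun t s h) (e : ℕ) (B : Multiset ℕ) :
    h (e + 1) B = h e B + rI h (e + 1) B := by
  rw [rI_succ]
  have := H.mono e B
  omega

theorem StripFun.mono_le (H : StripFun t s h) {e e' : ℕ} (he : e ≤ e') (B : Multiset ℕ) :
    h e B ≤ h e' B := by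
  induction e', he using Nat.le_induction with
  | base => exact le_rfl
  | succ n _ ih => exact ih.trans (H.mono n B)

theorem StripFun.r_mono (H : StripFun t s h) (e : ℕ) (B : Multiset ℕ) :
    rI h e B ≤ rI h (e + 1) B := by
  rcases Nat.eq_zero_or_pos e with rfl | he
  · rw [rI_zero, rI_succ]
    have := H.conv0 B
    change h 0 B ≤ h 1 B - h 0 B
    omega
  · obtain ⟨e, rfl⟩ : ∃ e', e = e' + 1 := ⟨e - 1, by omega⟩
    rw [rI_succ, rI_succ]
    have h1 := H.conv e B
    have h2 := H.mono e B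
    have h3 : h (e + 1 + 1) B = h (e + 2) B := rfl
    omega

theorem StripFun.r_mono_le (H : StripFun t s h) {e e' : ℕ} (he : e ≤ e') (B : Multiset ℕ) :
    rI h e B ≤ rI h e' B := by
  induction e', he using Nat.le_induction with
  | base => exact le_rfl
  | succ n _ ih => exact ih.trans (H.r_mono n B)

theorem StripFun.r_le (H : StripFun t s h) (e : ℕ) (B : Multiset ℕ) : rI h e B ≤ t := by
  rcases Nat.eq_zero_or_pos e with rfl | he
  · rw [rI_zero]
    exact H.rle0 B
  · obtain ⟨e, rfl⟩ : ∃ e', e = e' + 1 := ⟨e - 1, by omega⟩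
    rw [rI_succ]
    have := H.rle e B
    omega

theorem StripFun.r_le_h (H : StripFun t s h) (e : ℕ) (B : Multiset ℕ) : rI h e B ≤ h e B := by
  unfold rI
  omega

/-- `h_e = Σ r`. -/
theorem StripFun.h_eq_sum (H : StripFun t s h) (e : ℕ) (B : Multiset ℕ) :
    h e B = ∑ i ∈ Finset.range (e + 1), rI h (e - i) B := by
  rw [← Finset.sum_range_reflect]
  have h1 : ∀ e, h e B = ∑ j ∈ Finset.range (e + 1), rI h j B := by
    intro e
    induction e with
    | zero => simp [rI_zero]
    | succ n ih => rw [Finset.sum_range_succ, ← ih, H.h_succ]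
  rw [h1 e]
  refine Finset.sum_congr rfl fun i hi => ?_
  rw [Finset.mem_range] at hi
  congr 1
  omega

theorem sum_sub_T (m : ℕ) : ∑ i ∈ Finset.range m, (m - i) = T m := by
  induction m with
  | zero => simp [T]
  | succ n ih =>
    rw [Finset.sum_range_succ', T_succ, ← ih]
    simp

/-- (a) A bad step: the increments up to the degree `e - m + 1` are smaller than `m`. -/
theorem StripFun.bad_r (H : StripFun t s h) {e m : ℕ} {B : Multiset ℕ} (hme : m ≤ e + 1)
    (hbad : h e B < h e (m ::ₘ B) + T m) : 1 ≤ m ∧ rI h (e + 1 - m) B + 1 ≤ m := by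
  by_contra hcon
  have key : ∀ i, i < m → m - i ≤ rI h (e - i) B := by
    intro i hi
    by_contra h1
    apply hcon
    have h2 := H.r_mono_le (show e + 1 - m ≤ e - i by omega) B
    omega
  have h1 := H.star e m B
  have h2 := H.h_eq_sum e B
  have h3 : ∑ i ∈ Finset.range (e + 1), (rI h (e - i) B - (m - i)) +
      ∑ i ∈ Finset.range (e + 1), (m - i) = ∑ i ∈ Finset.range (e + 1), rI h (e - i) B := by
    rw [← Finset.sum_add_distrib]
    refine Finset.sum_congr rfl fun i _ => ?_
    rcases Nat.lt_or_ge i m with hi | hi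
    · have := key i hi
      omega
    · omega
  have h4 : ∑ i ∈ Finset.range (e + 1), (m - i) = T m := by
    rw [← sum_sub_T, eq_comm]
    refine Finset.sum_subset (fun i hi => ?_) fun i _ hi => ?_
    · rw [Finset.mem_range] at hi ⊢
      omega
    · rw [Finset.mem_range, not_lt] at hi
      omega
  omega

/-- (a) The value at a bad step: `N ≤ (m - 1) (t + v)` if `h_(e-v) = 0`. -/
theorem StripFun.bad_h (H : StripFun t s h) {e m : ℕ} {B : Multiset ℕ} (hme : m ≤ e + 1)
    (hbad : h e B < h e (m ::ₘ B) + T m) {v : ℕ} (hv : v = e + 1 ∨ (v ≤ e ∧ h (e - v) B = 0)) :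
    h e B ≤ (m - 1) * (t + v) := by
  obtain ⟨hm1, hr⟩ := H.bad_r hme hbad
  have h1 := H.h_eq_sum e B
  -- the sum over `i < v` only
  have h2 : ∑ i ∈ Finset.range (e + 1), rI h (e - i) B ≤ ∑ i ∈ Finset.range v, rI h (e - i) B := by
    rcases hv with rfl | ⟨hv1, hv2⟩
    · exact le_rfl
    · have h3 : ∑ i ∈ Finset.range (e + 1), rI h (e - i) B =
          ∑ i ∈ Finset.range v, rI h (e - i) B := by
        rw [eq_comm]
        refine Finset.sum_subset (fun i hi => ?_) fun i hi hi' => ?_
        · rw [Finset.mem_range] at hi ⊢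
          omega
        · rw [Finset.mem_range] at hi
          rw [Finset.mem_range, not_lt] at hi'
          have h4 := H.mono_le (show e - i ≤ e - v by omega) B
          have h5 := H.r_le_h (e - i) B
          omega
      exact h3.le
  have h3 : ∑ i ∈ Finset.range v, rI h (e - i) B ≤
      ∑ i ∈ Finset.range v, ((if i < m - 1 then t else 0) + (m - 1)) := by
    refine Finset.sum_le_sum fun i _ => ?_
    split_ifs with hi
    · have := H.r_le (e - i) B
      omega
    · have := H.r_mono_le (show e - i ≤ e + 1 - m by omega) B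
      omega
  rw [Finset.sum_add_distrib, Finset.sum_const, Finset.card_range, smul_eq_mul] at h3
  have h4 : ∑ i ∈ Finset.range v, (if i < m - 1 then t else 0) ≤ (m - 1) * t := by
    rw [← Finset.sum_filter, Finset.sum_const, smul_eq_mul]
    refine Nat.mul_le_mul_right _ ?_
    calc ((Finset.range v).filter fun i => i < m - 1).card ≤ (Finset.range (m - 1)).card := by
          refine Finset.card_le_card fun i hi => ?_
          rw [Finset.mem_filter] at hi
          exact Finset.mem_range.2 hi.2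
      _ = m - 1 := Finset.card_range _
  calc h e B ≤ (m - 1) * t + v * (m - 1) := by omega
    _ = (m - 1) * (t + v) := by ring

/-- The number of degrees `≤ e` without a nonzero member. -/
def d1 (h : ℕ → Multiset ℕ → ℕ) (e : ℕ) (B : Multiset ℕ) : ℕ :=
  ((Finset.range (e + 1)).filter fun e' => h e' B = 0).card

theorem d1_le (e : ℕ) (B : Multiset ℕ) : d1 h e B ≤ e + 1 := by
  unfold d1
  exact (Finset.card_filter_le _ _).trans (by rw [Finset.card_range])

theorem StripFun.d1_spec (H : StripFun t s h) {e e' : ℕ} (he : e' ≤ e) (B : Multiset ℕ) :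
    h e' B = 0 ↔ e' < d1 h e B := by
  classical
  have key : ∀ e, (Finset.range (e + 1)).filter (fun e' => h e' B = 0) =
      Finset.range (d1 h e B) := by
    intro e
    have h1 : ∀ x ∈ (Finset.range (e + 1)).filter (fun e' => h e' B = 0), ∀ y, y < x →
        y ∈ (Finset.range (e + 1)).filter (fun e' => h e' B = 0) := by
      intro x hx y hy
      rw [Finset.mem_filter, Finset.mem_range] at hx ⊢
      have := H.mono_le hy.le B
      exact ⟨by omega, by omega⟩
    set A := (Finset.range (e + 1)).filter (fun e' => h e' B = 0) with hA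
    have h2 : A ⊆ Finset.range A.card := by
      intro x hx
      rw [Finset.mem_range]
      have h3 : Finset.range (x + 1) ⊆ A := by
        intro y hy
        rw [Finset.mem_range] at hy
        rcases Nat.lt_or_ge y x with h4 | h4
        · exact h1 x hx y h4
        · have : y = x := by omega
          rw [this]
          exact hx
      have h4 := Finset.card_le_card h3
      rw [Finset.card_range] at h4
      omega
    exact Finset.eq_of_subset_of_card_le h2 (by rw [Finset.card_range]; exact le_rfl)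
  constructor
  · intro h1
    have h2 : e' ∈ (Finset.range (e + 1)).filter (fun e' => h e' B = 0) := by
      rw [Finset.mem_filter, Finset.mem_range]
      exact ⟨by omega, h1⟩
    rw [key e, Finset.mem_range] at h2
    exact h2
  · intro h1
    have h2 : e' ∈ Finset.range (d1 h e B) := Finset.mem_range.2 h1
    rw [← key e, Finset.mem_filter] at h2
    exact h2.2

/-- (b) One step. -/
theorem StripFun.step (H : StripFun t s h) {e m M : ℕ} {B : Multiset ℕ} (hm : m ≤ M) (hM : M ≤ e)
    (hpos : 1 ≤ h (e - M) (m ::ₘ B)) :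
    3 * T m + 12 * h e (m ::ₘ B) + 2 * (M + 1) * d1 h e B ≤
      12 * h e B + 2 * (M + 1) * d1 h e (m ::ₘ B) := by
  have hanti := H.anti e m B
  have hd : d1 h e B ≤ d1 h e (m ::ₘ B) := by
    unfold d1
    refine Finset.card_le_card fun x hx => ?_
    rw [Finset.mem_filter] at hx ⊢
    have := H.anti x m B
    exact ⟨hx.1, by omega⟩
  have hd' : 2 * (M + 1) * d1 h e B ≤ 2 * (M + 1) * d1 h e (m ::ₘ B) := Nat.mul_le_mul_left _ hd
  by_cases hcase : m ≤ 4 * rI h (e - m / 2) B
  · -- case 1
    obtain ⟨q, hq⟩ : ∃ q, q = (m + 3) / 4 := ⟨_, rfl⟩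
    have h1 := H.star e m B
    have h2 := H.h_eq_sum e B
    have h5 : Finset.range (m / 2 + 1) ⊆ Finset.range (e + 1) := by
      intro i hi
      rw [Finset.mem_range] at hi ⊢
      omega
    have h3 : ∑ i ∈ Finset.range (e + 1), (rI h (e - i) B - (m - i)) + (m / 2 + 1) * q ≤
        ∑ i ∈ Finset.range (e + 1), rI h (e - i) B := by
      rw [← Finset.sum_sdiff h5, ← Finset.sum_sdiff h5 (f := fun i => rI h (e - i) B)]
      have h6 : ∑ x ∈ Finset.range (e + 1) \ Finset.range (m / 2 + 1),
          (rI h (e - x) B - (m - x)) ≤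
          ∑ x ∈ Finset.range (e + 1) \ Finset.range (m / 2 + 1), rI h (e - x) B :=
        Finset.sum_le_sum fun i _ => Nat.sub_le _ _
      have h7 : ∑ x ∈ Finset.range (m / 2 + 1), (rI h (e - x) B - (m - x)) + (m / 2 + 1) * q ≤
          ∑ x ∈ Finset.range (m / 2 + 1), rI h (e - x) B := by
        have h8 : (m / 2 + 1) * q = ∑ _x ∈ Finset.range (m / 2 + 1), q := by
          rw [Finset.sum_const, Finset.card_range, smul_eq_mul]
        rw [h8, ← Finset.sum_add_distrib]
        refine Finset.sum_le_sum fun i hi => ?_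
        rw [Finset.mem_range] at hi
        have := H.r_mono_le (show e - m / 2 ≤ e - i by omega) B
        omega
      omega
    have h4 := two_T m
    have h6 : m * (m + 1) ≤ 8 * ((m / 2 + 1) * q) := by
      have h7 : m + 1 ≤ 2 * (m / 2 + 1) := by omega
      have h8 : m ≤ 4 * q := by omega
      calc m * (m + 1) ≤ (4 * q) * (2 * (m / 2 + 1)) := Nat.mul_le_mul h8 h7
        _ = 8 * ((m / 2 + 1) * q) := by ring
    omega
  · -- case 2
    rw [not_le] at hcase
    obtain ⟨e', he'⟩ : ∃ e', e' = d1 h e (m ::ₘ B) := ⟨_, rfl⟩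
    have hle : e' ≤ e - M := by
      by_contra h1
      have h2 := (H.d1_spec (show e - M ≤ e by omega) (m ::ₘ B)).2 (by omega)
      omega
    have hpos' : 1 ≤ h e' (m ::ₘ B) := by
      by_contra h1
      have h2 := (H.d1_spec (show e' ≤ e by omega) (m ::ₘ B)).1 (by omega)
      omega
    have h1 := hpos'.trans (H.star e' m B)
    obtain ⟨i, hi, hi1⟩ : ∃ i ∈ Finset.range (e' + 1), 1 ≤ rI h (e' - i) B - (m - i) := by
      by_contra h2
      push Not at h2
      have h3 : ∑ i ∈ Finset.range (e' + 1), (rI h (e' - i) B - (m - i)) = 0 :=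
        Finset.sum_eq_zero fun i hi => by
          have := h2 i hi
          omega
      omega
    rw [Finset.mem_range] at hi
    have h2 := H.r_mono_le (show e' - i ≤ e - m / 2 by omega) B
    have h3 : 3 * m + 5 ≤ 4 * i := by omega
    have h4 : d1 h e B ≤ e' - i := by
      by_contra h5
      have h6 := (H.d1_spec (show e' - i ≤ e by omega) B).2 (by omega)
      have h7 := H.r_le_h (e' - i) B
      omega
    have h5 : d1 h e B + i ≤ d1 h e (m ::ₘ B) := by omega
    have h6 := two_T m
    have h7 : 3 * T m ≤ 2 * (M + 1) * i := by nlinarith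
    have h8 : 2 * (M + 1) * (d1 h e B + i) ≤ 2 * (M + 1) * d1 h e (m ::ₘ B) :=
      Nat.mul_le_mul_left _ h5
    rw [mul_add] at h8
    omega

/-- (b) Many steps. -/
theorem StripFun.steps (H : StripFun t s h) {e M : ℕ} (hM : M ≤ e) (B1 : Multiset ℕ) :
    ∀ B2 : Multiset ℕ, (∀ m ∈ B2, m ≤ M) → 1 ≤ h (e - M) (B2 + B1) →
    3 * TT B2 + 12 * h e (B2 + B1) + 2 * (M + 1) * d1 h e B1 ≤
      12 * h e B1 + 2 * (M + 1) * d1 h e (B2 + B1) := by
  intro B2
  induction B2 using Multiset.induction_on with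
  | empty => simp [TT_zero]
  | cons m B2 ih =>
    intro hm hpos
    rw [Multiset.cons_add] at hpos ⊢
    have h1 := ih (fun a ha => hm a (Multiset.mem_cons_of_mem ha))
      (hpos.trans (H.anti (e - M) m (B2 + B1)))
    have h2 := H.step (hm m (Multiset.mem_cons_self m B2)) hM hpos
    rw [TT_cons]
    omega

/-- The first bad step. -/
theorem StripFun.firstBad (H : StripFun t s h) {e : ℕ} (B : Multiset ℕ) (hpos : 1 ≤ h e B)
    (hB : s e < h e B + TT B) : ∃ (B1 : Multiset ℕ) (m : ℕ) (B2 : Multiset ℕ),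
      B = B2 + (m ::ₘ B1) ∧ h e B1 + TT B1 = s e ∧ h e B1 < h e (m ::ₘ B1) + T m ∧
        1 ≤ h e B1 := by
  induction B using Multiset.induction_on with
  | empty =>
    rw [TT_zero, H.zero] at hB
    omega
  | cons m B ih =>
    by_cases h1 : s e < h e B + TT B
    · obtain ⟨B1, m', B2, h2, h3, h4, h5⟩ := ih (hpos.trans (H.anti e m B)) h1
      exact ⟨B1, m', m ::ₘ B2, by rw [h2, Multiset.cons_add], h3, h4, h5⟩
    · have h2 := H.lower e B
      rw [TT_cons] at hB
      exact ⟨B, m, 0, by simp, by omega, by omega, hpos.trans (H.anti e m B)⟩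

theorem StripFun.d1_le_of_pos (H : StripFun t s h) {e e' : ℕ} (he : e' ≤ e) {B : Multiset ℕ}
    (hpos : 1 ≤ h e' B) : d1 h e B ≤ e' := by
  by_contra h1
  have := (H.d1_spec he B).2 (by omega)
  omega

theorem StripFun.pos_d1 (H : StripFun t s h) {e : ℕ} {B : Multiset ℕ} (hpos : 1 ≤ h e B) :
    1 ≤ h (d1 h e B) B := by
  by_contra h1
  have h2 := H.d1_le_of_pos le_rfl hpos
  have := (H.d1_spec h2 B).1 (by omega)
  omega

theorem StripFun.d1_eq (H : StripFun t s h) {e e' : ℕ} (he : e' ≤ e) {B : Multiset ℕ}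
    (hpos : 1 ≤ h e' B) : d1 h e' B = d1 h e B := by
  have h1 := H.d1_le_of_pos le_rfl hpos
  have h2 := H.d1_le_of_pos he hpos
  apply le_antisymm
  · by_contra h3
    have h4 := (H.d1_spec h2 B).2 (by omega)
    have h5 := (H.d1_spec (h2.trans he) B).1 h4
    omega
  · by_contra h3
    have h4 := (H.d1_spec (h1.trans he) B).2 (by omega)
    have h5 := (H.d1_spec h1 B).1 h4
    omega

/-- The value at a bad step. -/
theorem StripFun.bad_N (H : StripFun t s h) {e m M : ℕ} {B : Multiset ℕ} (hm : m ≤ M)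
    (hM : M ≤ e) (hpos : 1 ≤ h e B) (hbad : h e B < h e (m ::ₘ B) + T m) :
    h e B ≤ (M - 1) * (t + (e + 1 - d1 h e B)) := by
  have h1 := H.d1_le_of_pos le_rfl hpos
  have h2 := H.bad_h (v := e + 1 - d1 h e B) (by omega) hbad (by
    rcases Nat.eq_zero_or_pos (d1 h e B) with h0 | h0
    · left
      omega
    · right
      refine ⟨by omega, ?_⟩
      have h3 : e - (e + 1 - d1 h e B) = d1 h e B - 1 := by omega
      rw [h3]
      exact (H.d1_spec (show d1 h e B - 1 ≤ e by omega) B).2 (by omega))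
  exact h2.trans (Nat.mul_le_mul_right _ (by omega))

/-- (b) The mass after the first bad step. -/
theorem StripFun.mass (H : StripFun t s h) {e M : ℕ} (hM : M ≤ e) {B : Multiset ℕ}
    (hB : ∀ m ∈ B, m ≤ M) (hpos : 1 ≤ h (e - M) B) (hsp : s e < h e B + TT B) :
    ∃ (B1 : Multiset ℕ) (m : ℕ), (∀ a ∈ B1, a ≤ M) ∧ m ≤ M ∧ h e B1 + TT B1 = s e ∧
      h e B1 < h e (m ::ₘ B1) + T m ∧ 1 ≤ h e B1 ∧
      3 * TT B + 2 * (M + 1) * d1 h e B1 ≤
        3 * s e + 9 * h e B1 + 2 * (M + 1) * d1 h e B := by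
  have hpos' : 1 ≤ h e B := hpos.trans (H.mono_le (Nat.sub_le e M) B)
  obtain ⟨B1, m, B2, h1, h2, h3, h4⟩ := H.firstBad B hpos' hsp
  have hm : ∀ a ∈ m ::ₘ B2, a ≤ M := by
    intro a ha
    apply hB
    rw [h1]
    rcases Multiset.mem_cons.1 ha with rfl | ha
    · exact Multiset.mem_add.2 (Or.inr (Multiset.mem_cons_self a B1))
    · exact Multiset.mem_add.2 (Or.inl ha)
  have h5 : B = (m ::ₘ B2) + B1 := by rw [h1, Multiset.add_cons, Multiset.cons_add]
  refine ⟨B1, m, fun a ha => hB a ?_, hm m (Multiset.mem_cons_self m B2), h2, h3, h4, ?_⟩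
  · rw [h5]
    exact Multiset.mem_add.2 (Or.inr ha)
  · have h6 := H.steps hM B1 (m ::ₘ B2) hm (by rw [← h5]; exact hpos)
    rw [← h5] at h6
    have h7 : TT B = TT (m ::ₘ B2) + TT B1 := by rw [h5, TT_add]
    omega

/-- (c) The length of the interval of small increments is at most `12 M`. -/
theorem StripFun.uBound (H : StripFun t s h) {M e0 : ℕ} (hM : 1 ≤ M) (ht : 20 * M ≤ t)
    (hs : ∀ e, e0 ≤ e → s (e + 1) = s e + t) (hM0 : M ≤ e0) :
    ∀ (e : ℕ), e0 ≤ e → ∀ (B1 : Multiset ℕ) (m : ℕ), (∀ a ∈ B1, a ≤ M) → m ≤ M →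
      h e B1 + TT B1 = s e → h e B1 < h e (m ::ₘ B1) + T m → 1 ≤ h e B1 →
      e ≤ d1 h e B1 + 12 * M + (3 * e0 + 12 * M - e) := by
  intro e
  induction e using Nat.strong_induction_on with
  | _ e ih =>
    intro he B1 m hB1 hm hgood hbad hpos
    by_contra hcon
    rw [not_le] at hcon
    obtain ⟨d, hd⟩ : ∃ d, d = d1 h e B1 := ⟨_, rfl⟩
    rw [← hd] at hcon
    have hde : d ≤ e := by rw [hd]; exact H.d1_le_of_pos le_rfl hpos
    have hN := H.bad_N hm (hM0.trans he) hpos hbad
    rw [← hd] at hN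
    obtain ⟨e', he'⟩ : ∃ e', e' = max (d + M) e0 := ⟨_, rfl⟩
    have he'e : e' < e := by
      rw [he', max_lt_iff]
      constructor
      · omega
      · omega
    have hde' : d + M ≤ e' := by rw [he']; exact le_max_left _ _
    have he0 : e0 ≤ e' := by rw [he']; exact le_max_right _ _
    have hsum : s e = s e' + (e - e') * t := by
      have key : ∀ n, s (e' + n) = s e' + n * t := by
        intro n
        induction n with
        | zero => simp
        | succ n ihn =>
          rw [← add_assoc, hs _ (by omega), ihn]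
          ring
      have := key (e - e')
      rwa [show e' + (e - e') = e by omega] at this
    have hposd : 1 ≤ h d B1 := by rw [hd]; exact H.pos_d1 hpos
    have hpos2 : 1 ≤ h (e' - M) B1 := hposd.trans (H.mono_le (by omega) B1)
    have hpos3 : 1 ≤ h e' B1 := hpos2.trans (H.mono_le (by omega) B1)
    have hd' : d1 h e' B1 = d := by rw [hd]; exact H.d1_eq he'e.le hpos3
    -- the inequality
    have key : ∃ u' : ℕ, u' ≤ e' ∧ (e' = d + M → u' ≤ 12 * M + (3 * e0 + 12 * M - e')) ∧
        3 * ((e - e') * t) ≤ 3 * h e B1 + 9 * ((M - 1) * (t + (u' + 1))) +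
          2 * (M + 1) * u' := by
      by_cases hsp : s e' < h e' B1 + TT B1
      · obtain ⟨B2, m', g1, g2, g3, g4, g5, g6⟩ := H.mass (hM0.trans he0) hB1 hpos2 hsp
        have g7 := H.bad_N g2 (hM0.trans he0) g5 g4
        have g8 := H.d1_le_of_pos le_rfl g5
        refine ⟨e' - d1 h e' B2, Nat.sub_le _ _, fun _ => ?_, ?_⟩
        · have := ih e' he'e he0 B2 m' g1 g2 g3 g4 g5
          omega
        · rw [hd'] at g6
          have g9 : e' + 1 - d1 h e' B2 = e' - d1 h e' B2 + 1 := by omega
          rw [g9] at g7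
          have g10 : 2 * (M + 1) * d ≤ 2 * (M + 1) * (e' - d1 h e' B2) +
              2 * (M + 1) * d1 h e' B2 := by
            rw [← mul_add]
            exact Nat.mul_le_mul_left _ (by omega)
          omega
      · refine ⟨0, Nat.zero_le _, fun _ => Nat.zero_le _, ?_⟩
        have := H.lower e' B1
        omega
    obtain ⟨u', hu1, hu2, hu3⟩ := key
    obtain ⟨M', rfl⟩ : ∃ M', M = M' + 1 := ⟨M - 1, by omega⟩
    rw [Nat.add_sub_cancel] at hN hu3
    obtain ⟨u, hu⟩ : ∃ u, e = d + u := ⟨e - d, by omega⟩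
    have hv : e + 1 - d = u + 1 := by omega
    rw [hv] at hN
    have hN' : 3 * h e B1 ≤ 3 * (M' * (t + (u + 1))) := Nat.mul_le_mul_left _ hN
    have hmain := hu3.trans (Nat.add_le_add_right (Nat.add_le_add_right hN' _) _)
    rcases Nat.lt_or_ge (d + (M' + 1)) e0 with hc | hc
    · -- `e' = e0`
      have e1 : e' = e0 := by rw [he']; exact max_eq_right hc.le
      rw [e1] at hmain hu1
      obtain ⟨w, hw⟩ : ∃ w, e = e0 + w := ⟨e - e0, by omega⟩
      have e2 : e - e0 = w := by omega
      rw [e2] at hmain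
      have e3 : 3 * e0 + 24 * (M' + 1) < 2 * e := by omega
      have e4 : e0 + 24 * (M' + 1) < 2 * w := by omega
      have e5 : u ≤ e0 + w := by omega
      nlinarith
    · have e1 : e' = d + (M' + 1) := by rw [he']; exact max_eq_left hc
      have e2 := hu2 e1
      have e3 : e - e' = u - (M' + 1) := by omega
      rw [e3] at hmain
      obtain ⟨X, hX⟩ : ∃ X, X = 3 * e0 + 12 * (M' + 1) - e := ⟨_, rfl⟩
      have e4 : 12 * (M' + 1) + X < u := by omega
      obtain ⟨y, hy⟩ : ∃ y, u = (M' + 1) + y := ⟨u - (M' + 1), by omega⟩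
      have e5 : u - (M' + 1) = y := by omega
      rw [e5] at hmain
      have e6 : u' ≤ 12 * (M' + 1) + X + y := by omega
      subst hy
      nlinarith

/-- THE WINDOW OF A STRIP. -/
theorem StripFun.window (H : StripFun t s h) {M e0 : ℕ} (hM : 1 ≤ M) (ht : 20 * M ≤ t)
    (hs : ∀ e, e0 ≤ e → s (e + 1) = s e + t) (hM0 : M ≤ e0) {e : ℕ} (he : 3 * e0 + 12 * M ≤ e)
    (B : Multiset ℕ) (hB : ∀ m ∈ B, m ≤ M) :
    (TT B + M * (t + 12 * M + 1) ≤ s e → h e B + TT B = s e) ∧
      (1 ≤ h e B → TT B ≤ s e + 5 * M * (t + 1) + 48 * M ^ 2) := by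
  obtain ⟨M', rfl⟩ : ∃ M', M = M' + 1 := ⟨M - 1, by omega⟩
  have hlow := H.lower e B
  constructor
  · intro h1
    by_contra h2
    have h3 : 1 ≤ (M' + 1) * (t + 12 * (M' + 1) + 1) := Nat.mul_pos (by omega) (by omega)
    obtain ⟨B1, m, B2, g1, g2, g3, g4⟩ := H.firstBad (e := e) B (by omega) (by omega)
    have g5 : ∀ a ∈ B1, a ≤ M' + 1 := fun a ha => hB a (by
      rw [g1]
      exact Multiset.mem_add.2 (Or.inr (Multiset.mem_cons_of_mem ha)))
    have g6 : m ≤ M' + 1 := hB m (by
      rw [g1]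
      exact Multiset.mem_add.2 (Or.inr (Multiset.mem_cons_self m B1)))
    have g7 := H.uBound hM ht hs hM0 e (by omega) B1 m g5 g6 g2 g3 g4
    have g8 := H.bad_N g6 (by omega) g4 g3
    rw [Nat.add_sub_cancel] at g8
    have g9 : t + (e + 1 - d1 h e B1) ≤ t + 12 * (M' + 1) + 1 := by omega
    have g10 := g8.trans (Nat.mul_le_mul_left M' g9)
    have g11 : TT B = TT B2 + (T m + TT B1) := by rw [g1, TT_add, TT_cons]
    have g12 : (M' + 1) * (t + 12 * (M' + 1) + 1) =
        M' * (t + 12 * (M' + 1) + 1) + (t + 12 * (M' + 1) + 1) := by ring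
    omega
  · intro h1
    have hsum : s (e + (M' + 1)) = s e + (M' + 1) * t := by
      have key : ∀ n, s (e + n) = s e + n * t := by
        intro n
        induction n with
        | zero => simp
        | succ n ihn =>
          rw [← add_assoc, hs _ (by omega), ihn]
          ring
      exact key _
    by_cases hsp : s (e + (M' + 1)) < h (e + (M' + 1)) B + TT B
    · have hpos : 1 ≤ h (e + (M' + 1) - (M' + 1)) B := by
        rw [Nat.add_sub_cancel]
        exact h1
      obtain ⟨B1, m, g1, g2, g3, g4, g5, g6⟩ := H.mass (M := M' + 1) (by omega) hB hpos hsp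
      have g7 := H.uBound hM ht hs hM0 (e + (M' + 1)) (by omega) B1 m g1 g2 g3 g4 g5
      have g8 := H.bad_N g2 (by omega) g5 g4
      rw [Nat.add_sub_cancel] at g8
      have g9 := H.d1_le_of_pos (show e + (M' + 1) - (M' + 1) ≤ e + (M' + 1) by omega) hpos
      rw [Nat.add_sub_cancel] at g9
      obtain ⟨D, hD⟩ : ∃ D, D = d1 h (e + (M' + 1)) B1 := ⟨_, rfl⟩
      obtain ⟨D', hD'⟩ : ∃ D', D' = d1 h (e + (M' + 1)) B := ⟨_, rfl⟩
      rw [← hD, ← hD'] at g6
      rw [← hD] at g7 g8
      rw [← hD'] at g9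
      have g10 : D' ≤ D + 11 * (M' + 1) := by omega
      have g11 : 2 * (M' + 1 + 1) * D' ≤ 2 * (M' + 1 + 1) * (D + 11 * (M' + 1)) :=
        Nat.mul_le_mul_left _ g10
      have g12 : t + (e + (M' + 1) + 1 - D) ≤ t + 12 * (M' + 1) + 1 := by omega
      have g13 := g8.trans (Nat.mul_le_mul_left M' g12)
      nlinarith
    · have h2 := H.lower (e + (M' + 1)) B
      nlinarith

end ShghX1
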